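import Pool.Agent.Lib.MP_31386d_pr_ins.Defs
import Pool.Agent.Lib.MP_31386d_pr.Translate

/-!
# MP_31386d_pr: finite volume
-/

set_option autoImplicit false

namespace Pool.Agent.MP31386dIns

open MeasureTheory Set
open scoped Classical Topology
open Pool.Agent.Lib.MP_31386d_pr (Pt Ed tgt EI EB EF cube PrF wF ph ph_inj BdF Ex Pb)

variable {d : ℕ} {q p : ℝ}

theorem edges_eq (B : Finset (Zd d)) : edges B = EF B := by
  ext z
  rw [EF, ← Lib.MP_31386d_pr.mem_E_iff, edges]
  simp only [Finset.mem_image, Finset.mem_filter, Finset.mem_product, Prod.exists]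
  constructor
  · rintro ⟨a, b, ⟨⟨h1, h2⟩, h3⟩, h4⟩
    exact ⟨a, b, h1, h2, h3, h4⟩
  · rintro ⟨a, b, h1, h2, h3, h4⟩
    exact ⟨a, b, ⟨⟨h1, h2⟩, h3⟩, h4⟩

theorem mem_edges {B : Finset (Zd d)} {e : Sym2 (Zd d)} :
    e ∈ edges B ↔ IsEdge e ∧ ∀ x ∈ e, x ∈ B := by
  unfold edges IsEdge
  simp only [Finset.mem_image, Finset.mem_filter, Finset.mem_product, Prod.exists]
  constructor
  · rintro ⟨a, b, ⟨⟨h1, h2⟩, h3⟩, rfl⟩
    refine ⟨⟨a, b, h3, rfl⟩, fun x hx => ?_⟩
    rcases Sym2.mem_iff.1 hx with rfl | rfl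
    · exact h1
    · exact h2
  · rintro ⟨⟨x, y, h, rfl⟩, hB⟩
    exact ⟨x, y, ⟨⟨hB x (by simp), hB y (by simp)⟩, h⟩, rfl⟩

theorem weight_eq (B W : Finset (Zd d)) (ω : Finset (Sym2 (Zd d))) :
    weight q p B W ω = wF q B W p ω := by
  unfold weight wF
  rw [edges_eq]
  rfl

theorem prob_eq (B W : Finset (Zd d)) (A : Finset (Sym2 (Zd d)) → Prop) :
    prob q p B W A = PrF q B W p A := by
  unfold prob PrF
  rw [edges_eq]
  simp only [weight_eq]

theorem box_eq (n : ℕ) : box d n = cube d n := rfl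

theorem boundary_eq (n : ℕ) : boundary d n = BdF d n := by
  unfold boundary BdF
  rw [box_eq]

theorem weight_nonneg (hq : 1 ≤ q) (hp : p ∈ Icc (0 : ℝ) 1) (B W : Finset (Zd d))
    (ω : Finset (Sym2 (Zd d))) : 0 ≤ weight q p B W ω := by
  have h1 : 0 ≤ p := hp.1
  have h2 : 0 ≤ 1 - p := by linarith [hp.2]
  have h3 : 0 ≤ q := by linarith
  unfold weight
  positivity

theorem sum_weight_pos (hq : 1 ≤ q) (hp : p ∈ Icc (0 : ℝ) 1) (B W : Finset (Zd d)) :
    0 < ∑ ω ∈ (edges B).powerset, weight q p B W ω := by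
  have hq0 : 0 < q := by linarith
  rcases hp.1.lt_or_eq with h | h
  · refine Finset.sum_pos' (fun ω _ => weight_nonneg hq hp B W ω)
      ⟨edges B, Finset.mem_powerset_self _, ?_⟩
    unfold weight
    rw [Nat.sub_self, pow_zero, mul_one]
    positivity
  · refine Finset.sum_pos' (fun ω _ => weight_nonneg hq hp B W ω)
      ⟨∅, Finset.empty_mem_powerset _, ?_⟩
    unfold weight
    rw [← h]
    simp only [Finset.card_empty, pow_zero, sub_zero, one_pow, one_mul]
    positivity

/-- the wired probability in the box, for events in the infinite lattice -/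
noncomputable def pw (q p : ℝ) (n : ℕ) (A : Set (Config d)) : ℝ :=
  prob q p (box d n) (boundary d n) (fun ω => config ω ∈ A)

/-- the wired measure in the box -/
noncomputable def mu (d : ℕ) (q p : ℝ) (n : ℕ) : Measure (Config d) :=
  ∑ ω ∈ (edges (box d n)).powerset, ENNReal.ofReal (weight q p (box d n) (boundary d n) ω /
    ∑ ω ∈ (edges (box d n)).powerset, weight q p (box d n) (boundary d n) ω) •
      Measure.dirac (config ω)

theorem mu_real (hq : 1 ≤ q) (hp : p ∈ Icc (0 : ℝ) 1) (n : ℕ) {A : Set (Config d)}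
    (hA : MeasurableSet A) : (mu d q p n).real A = pw q p n A := by
  have hZ := sum_weight_pos hq hp (box d n) (boundary d n)
  set Z := ∑ ω ∈ (edges (box d n)).powerset, weight q p (box d n) (boundary d n) ω with hZd
  have h1 : (mu d q p n) A = ENNReal.ofReal (pw q p n A) := by
    unfold mu pw prob
    rw [← hZd, Measure.coe_finsetSum, Finset.sum_apply, Finset.sum_filter, Finset.sum_div,
      ENNReal.ofReal_sum_of_nonneg]
    · refine Finset.sum_congr rfl fun ω _ => ?_
      rw [Measure.smul_apply, Measure.dirac_apply' _ hA, smul_eq_mul]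
      by_cases h : config ω ∈ A
      · rw [indicator_of_mem h, if_pos h, Pi.one_apply, mul_one]
      · rw [indicator_of_notMem h, if_neg h, mul_zero, zero_div, ENNReal.ofReal_zero]
    · intro ω _
      split_ifs
      · exact div_nonneg (weight_nonneg hq hp _ _ _) hZ.le
      · rw [zero_div]
  rw [Measure.real, h1, ENNReal.toReal_ofReal]
  unfold pw prob
  exact div_nonneg (Finset.sum_nonneg fun ω _ => weight_nonneg hq hp _ _ _) hZ.le

theorem pw_univ (hq : 1 ≤ q) (hp : p ∈ Icc (0 : ℝ) 1) (n : ℕ) :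
    pw q p n (univ : Set (Config d)) = 1 := by
  have hZ := sum_weight_pos hq hp (box d n) (boundary d n)
  unfold pw prob
  simp only [mem_univ, Finset.filter_true]
  exact div_self hZ.ne'

theorem isProb_mu (hq : 1 ≤ q) (hp : p ∈ Icc (0 : ℝ) 1) (n : ℕ) :
    IsProbabilityMeasure (mu d q p n) := by
  have h := mu_real hq hp n (MeasurableSet.univ (α := Config d))
  rw [pw_univ hq hp] at h
  refine ⟨?_⟩
  have h2 := (ENNReal.toReal_eq_one_iff _).1 h
  exact h2

theorem pw_mono (hq : 1 ≤ q) (hp : p ∈ Icc (0 : ℝ) 1) (n : ℕ) {A B : Set (Config d)}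
    (h : A ⊆ B) : pw q p n A ≤ pw q p n B := by
  have hZ := sum_weight_pos hq hp (box d n) (boundary d n)
  unfold pw prob
  refine div_le_div_of_nonneg_right ?_ hZ.le
  refine Finset.sum_le_sum_of_subset_of_nonneg ?_ fun ω _ _ => weight_nonneg hq hp _ _ _
  intro ω hω
  rw [Finset.mem_filter] at hω ⊢
  exact ⟨hω.1, h hω.2⟩

theorem pw_nonneg (hq : 1 ≤ q) (hp : p ∈ Icc (0 : ℝ) 1) (n : ℕ) (A : Set (Config d)) :
    0 ≤ pw q p n A := by
  have hZ := sum_weight_pos hq hp (box d n) (boundary d n)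
  unfold pw prob
  exact div_nonneg (Finset.sum_nonneg fun ω _ => weight_nonneg hq hp _ _ _) hZ.le

/-! ### The parameters 0 and 1 -/

theorem pw_zero (hq : 1 ≤ q) (n : ℕ) (A : Set (Config d)) :
    pw q 0 n A = if config ∅ ∈ A then 1 else 0 := by
  have hp : (0 : ℝ) ∈ Icc (0 : ℝ) 1 := ⟨le_rfl, zero_le_one⟩
  have hZ := sum_weight_pos hq hp (box d n) (boundary d n)
  have hz : ∀ ω ∈ (edges (box d n)).powerset, ω ≠ ∅ →
      weight q 0 (box d n) (boundary d n) ω = 0 := by
    intro ω _ hne
    unfold weight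
    rw [zero_pow (Finset.card_ne_zero.2 (Finset.nonempty_iff_ne_empty.2 hne)), zero_mul, zero_mul]
  have h2 : ∑ ω ∈ (edges (box d n)).powerset, weight q 0 (box d n) (boundary d n) ω =
      weight q 0 (box d n) (boundary d n) ∅ :=
    Finset.sum_eq_single _ hz fun h => absurd (Finset.empty_mem_powerset _) h
  unfold pw prob
  rw [Finset.sum_filter]
  rw [h2] at hZ ⊢
  have h1 : (∑ ω ∈ (edges (box d n)).powerset, if config ω ∈ A then
      weight q 0 (box d n) (boundary d n) ω else 0) =
      if config ∅ ∈ A then weight q 0 (box d n) (boundary d n) ∅ else 0 := by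
    refine Finset.sum_eq_single _ (fun ω hω hne => ?_)
      fun h => absurd (Finset.empty_mem_powerset _) h
    rw [hz ω hω hne, ite_self]
  rw [h1]
  split_ifs
  · exact div_self hZ.ne'
  · exact zero_div _

theorem pw_one (hq : 1 ≤ q) (n : ℕ) (A : Set (Config d)) :
    pw q 1 n A = if config (edges (box d n)) ∈ A then 1 else 0 := by
  have hp : (1 : ℝ) ∈ Icc (0 : ℝ) 1 := ⟨zero_le_one, le_rfl⟩
  have hZ := sum_weight_pos hq hp (box d n) (boundary d n)
  have hz : ∀ ω ∈ (edges (box d n)).powerset, ω ≠ edges (box d n) →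
      weight q 1 (box d n) (boundary d n) ω = 0 := by
    intro ω hω hne
    rw [Finset.mem_powerset] at hω
    have h1 : ω.card < (edges (box d n)).card := Finset.card_lt_card (lt_of_le_of_ne hω hne)
    have h2 : (edges (box d n)).card - ω.card ≠ 0 := by omega
    unfold weight
    rw [sub_self, zero_pow h2, mul_zero, zero_mul]
  have h2 : ∑ ω ∈ (edges (box d n)).powerset, weight q 1 (box d n) (boundary d n) ω =
      weight q 1 (box d n) (boundary d n) (edges (box d n)) :=
    Finset.sum_eq_single _ hz fun h => absurd (Finset.mem_powerset_self _) h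
  unfold pw prob
  rw [Finset.sum_filter]
  rw [h2] at hZ ⊢
  have h1 : (∑ ω ∈ (edges (box d n)).powerset, if config ω ∈ A then
      weight q 1 (box d n) (boundary d n) ω else 0) =
      if config (edges (box d n)) ∈ A then
        weight q 1 (box d n) (boundary d n) (edges (box d n)) else 0 := by
    refine Finset.sum_eq_single _ (fun ω hω hne => ?_)
      fun h => absurd (Finset.mem_powerset_self _) h
    rw [hz ω hω hne, ite_self]
  rw [h1]
  split_ifs
  · exact div_self hZ.ne'
  · exact zero_div _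

end Pool.Agent.MP31386dIns
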