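import Pool.Agent.Lib.MP_31386d_pr_ins.Theta
import Pool.Agent.Lib.MP_31386d_pr_RQ.FinalRQ
import Pool.Agent.Lib.MP_31386d_pr_REALQ.Compare

/-!
# MP_31386d_pr: the critical points
-/

set_option autoImplicit false

namespace Pool.Agent.MP31386dIns

open MeasureTheory Set Filter
open scoped Classical Topology
open Pool.Agent.Lib.MP_31386d_pr (PrF BdF RE WS mem_WS_iff zero_notMem_WS one_mem_WS cube
  thw_mono_u FrozenFor)

variable {d : ℕ} {q p : ℝ}

theorem ws_up (hd : 1 ≤ d) (hq : 1 ≤ q) {p p' : ℝ} (hp : p ∈ WS d q) (h : p ≤ p')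
    (h1 : p' ≤ 1) : p' ∈ WS d q := by
  rcases h1.lt_or_eq with h2 | h2
  · have hp0 : 0 < p := by
      rcases hp.1.1.lt_or_eq with h3 | h3
      · exact h3
      · exact absurd (h3 ▸ hp) zero_notMem_WS
    have hp1 : p < 1 := by linarith
    have h0 : 0 < p' := by linarith
    rw [mem_WS_iff hq hp0 hp1 hd] at hp
    rw [mem_WS_iff hq h0 h2 hd]
    obtain ⟨c, hc, h3⟩ := hp
    refine ⟨c, hc, fun r => (h3 r).trans (thw_mono_u ?_ ?_ hq r)⟩
    · exact div_pos hp0 (by linarith)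
    · rw [div_le_div_iff₀ (by linarith) (by linarith)]
      nlinarith
  · rw [h2]
    exact one_mem_WS hq hd

theorem crit_eq (hd : 1 ≤ d) (hq : 1 ≤ q) {φ : ℝ → Measure (Config d)}
    (hφ : ∀ p ∈ Icc (0 : ℝ) 1, IsWired q p (φ p)) :
    sSup {p : ℝ | p ∈ Icc (0 : ℝ) 1 ∧ theta (φ p) = 0} = sInf (WS d q) := by
  have hmem : ∀ p ∈ Icc (0 : ℝ) 1, (theta (φ p) = 0 ↔ p ∉ WS d q) := by
    intro p hp
    have h1 := theta_pos_iff hd hq hp (hφ p hp)
    have h2 : 0 ≤ theta (φ p) := measureReal_nonneg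
    rw [← h1]
    constructor
    · intro h
      rw [h]
      exact lt_irrefl _
    · intro h
      exact le_antisymm (not_lt.1 h) h2
  have hne : (WS d q).Nonempty := ⟨1, one_mem_WS hq hd⟩
  have hbb : BddBelow (WS d q) := ⟨0, fun p hp => hp.1.1⟩
  have hab : BddAbove {p : ℝ | p ∈ Icc (0 : ℝ) 1 ∧ theta (φ p) = 0} :=
    ⟨1, fun p hp => hp.1.2⟩
  have h0 : (0 : ℝ) ∈ Icc (0 : ℝ) 1 := ⟨le_rfl, zero_le_one⟩
  have hne' : {p : ℝ | p ∈ Icc (0 : ℝ) 1 ∧ theta (φ p) = 0}.Nonempty :=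
    ⟨0, h0, (hmem 0 h0).2 zero_notMem_WS⟩
  refine le_antisymm ?_ ?_
  · refine csSup_le hne' fun z hz => le_csInf hne fun w hw => ?_
    by_contra hlt
    exact (hmem z hz.1).1 hz.2 (ws_up hd hq hw (not_le.1 hlt).le hz.1.2)
  · refine le_of_forall_lt fun x hx => ?_
    have hpos : 0 ≤ sInf (WS d q) := le_csInf hne fun w hw => hw.1.1
    have hle1 : sInf (WS d q) ≤ 1 := csInf_le hbb (one_mem_WS hq hd)
    rcases lt_or_ge x 0 with hx0 | hx0
    · exact lt_of_lt_of_le hx0 (le_csSup hab ⟨h0, (hmem 0 h0).2 zero_notMem_WS⟩)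
    · obtain ⟨y, hxy, hy⟩ := exists_between hx
      have hyI : y ∈ Icc (0 : ℝ) 1 := ⟨by linarith, by linarith⟩
      have hyW : y ∉ WS d q := fun h => absurd (csInf_le hbb h) (not_le.2 hy)
      exact lt_of_lt_of_le hxy (le_csSup hab ⟨hyI, (hmem y hyI).2 hyW⟩)

theorem frozenFor (hd : 3 ≤ d) (hq : 1 ≤ q) : FrozenFor d q := by
  refine Pool.Agent.Lib.MP_31386d_pr_REALQ.frozen_of_slabQ ?_ d hd q hq
  intro d hd q hq u u' hu huu hθ
  obtain ⟨D, rfl⟩ : ∃ D, d = D + 1 := ⟨d - 1, by omega⟩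
  exact Pool.Agent.Lib.MP_31386d_pr_RQ.slab_rq (by omega) hq hu huu hθ

theorem tendsto_pHat (hd : 3 ≤ d) (hq : 1 ≤ q) :
    Tendsto (fun L : ℕ => pHat d q L) atTop (𝓝 (sInf (WS d q))) := by
  have h := frozenFor hd hq edges (fun B => rfl) (fun B W p ω => weight q p B W ω)
    (fun B W p ω => rfl) (fun B W p A => prob q p B W A) (fun B W p A => rfl) (box d)
    (boundary d) (fun n => rfl) (fun n => rfl) (slab d) (fun L n => rfl)
  have e : {p : ℝ | p ∈ Icc (0 : ℝ) 1 ∧ ∃ c : ℝ, 0 < c ∧ ∀ n : ℕ,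
      c < prob q p (box d n) (boundary d n) (fun ω : Finset (Sym2 (Fin d → ℤ)) =>
        ∃ y ∈ boundary d n, (SimpleGraph.fromEdgeSet
          (ω : Set (Sym2 (Fin d → ℤ)))).Reachable 0 y)} = WS d q := by
    unfold WS
    simp only [prob_eq, boundary_eq, box_eq]
    rfl
  rw [e] at h
  exact h

end Pool.Agent.MP31386dIns
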