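import Mathlib

/-!
# MP_31386d_pr: the random-cluster model on `ℤ^d`, the wired infinite volume measure and the two
critical points
-/

set_option autoImplicit false

namespace Pool.Agent.MP31386dIns

open MeasureTheory Set
open scoped Classical Topology

/-- The points of the lattice `ℤ^d`. -/
abbrev Zd (d : ℕ) : Type := Fin d → ℤ

variable {d : ℕ}

/-- `e` is a nearest-neighbour edge of `ℤ^d`. -/
def IsEdge (e : Sym2 (Zd d)) : Prop := ∃ x y : Zd d, ∑ i, |x i - y i| = 1 ∧ e = s(x, y)

variable (d) in
/-- The set of the nearest-neighbour edges of `ℤ^d`. -/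
def Edge : Type := {e : Sym2 (Zd d) // IsEdge e}

variable (d) in
/-- The configurations: every edge of `ℤ^d` is open (`true`) or closed (`false`). They carry the
product σ-algebra. -/
abbrev Config : Type := Edge d → Bool

/-! ### Finite volume -/

/-- The lattice edges joining two points of the finite set `B`. -/
noncomputable def edges (B : Finset (Zd d)) : Finset (Sym2 (Zd d)) :=
  ((B ×ˢ B).filter (fun z : Zd d × Zd d => ∑ i, |z.1 i - z.2 i| = 1)).image
    (fun z => s(z.1, z.2))

/-- The number of the connected components of `(B, ω)` when all the points of `W ⊆ B` are joined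
to each other. -/
noncomputable def clusters (B W : Finset (Zd d)) (ω : Finset (Sym2 (Zd d))) : ℕ :=
  ((SimpleGraph.fromEdgeSet ((ω : Set (Sym2 (Zd d))) ∪
    {e : Sym2 (Zd d) | ∃ u ∈ W, ∃ v ∈ W, e = s(u, v)})).connectedComponentMk ''
      (B : Set (Zd d))).ncard

/-- The random-cluster weight of the set `ω` of the open edges, in the finite graph `B`; the
boundary condition is that the points of `W` are wired together (`W = ∅`: free). -/
noncomputable def weight (q p : ℝ) (B W : Finset (Zd d)) (ω : Finset (Sym2 (Zd d))) : ℝ :=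
  p ^ ω.card * (1 - p) ^ ((edges B).card - ω.card) * q ^ clusters B W ω

/-- The random-cluster probability of the event `A` in the finite graph `B`. -/
noncomputable def prob (q p : ℝ) (B W : Finset (Zd d)) (A : Finset (Sym2 (Zd d)) → Prop) : ℝ :=
  (∑ ω ∈ (edges B).powerset.filter A, weight q p B W ω) / ∑ ω ∈ (edges B).powerset, weight q p B W ω

variable (d) in
/-- The box `[-n, n]^d`. -/
noncomputable def box (n : ℕ) : Finset (Zd d) :=
  Fintype.piFinset (fun _ => Finset.Icc (-(n : ℤ)) (n : ℤ))

variable (d) in
/-- The boundary of the box. -/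
noncomputable def boundary (n : ℕ) : Finset (Zd d) := (box d n).filter fun x => ∃ i, |x i| = (n : ℤ)

variable (d) in
/-- The slab `S(L, n)`: `0 ≤ x_1 ≤ L - 1`, `|x_i| ≤ n` for the other coordinates. -/
noncomputable def slab (L n : ℕ) : Finset (Zd d) :=
  Fintype.piFinset (fun i : Fin d =>
    if i.val = 0 then Finset.Icc (0 : ℤ) ((L : ℤ) - 1) else Finset.Icc (-(n : ℤ)) (n : ℤ))

variable (d) in
/-- Property `Π(p, L)`. -/
def SlabConnected (q p : ℝ) (L : ℕ) : Prop := ∃ α : ℝ, 0 < α ∧ ∀ n : ℕ, ∀ x ∈ slab d L n,
  α < prob q p (slab d L n) ∅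
    (fun ω => (SimpleGraph.fromEdgeSet (ω : Set (Sym2 (Zd d)))).Reachable 0 x)

variable (d) in
/-- The slab critical point `p̂_c(q, L)`. -/
noncomputable def pHat (q : ℝ) (L : ℕ) : ℝ :=
  sInf {p : ℝ | p ∈ Icc (0 : ℝ) 1 ∧ SlabConnected d q p L}

/-! ### Infinite volume -/

/-- The configuration of the open edges `ω`, all the other edges being closed. -/
noncomputable def config (ω : Finset (Sym2 (Zd d))) : Config d := fun e => decide (e.1 ∈ ω)

/-- The event `A` depends only on the states of the edges in the finite set `F`. -/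
def DependsOnly (F : Finset (Edge d)) (A : Set (Config d)) : Prop :=
  ∀ σ τ : Config d, (∀ e ∈ F, σ e = τ e) → (σ ∈ A ↔ τ ∈ A)

/-- `φ` is the wired random-cluster measure on `ℤ^d`: the weak limit of the wired random-cluster
measures in the boxes `[-n, n]^d`, that is, the probability measure with
`φ(A) = lim φ¹_{[-n, n]^d}(A)` for all events `A` that depend on finitely many edges. -/
structure IsWired (q p : ℝ) (φ : Measure (Config d)) : Prop where
  isProbabilityMeasure : IsProbabilityMeasure φ
  tendsto : ∀ (F : Finset (Edge d)) (A : Set (Config d)), DependsOnly F A →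
    Filter.Tendsto (fun n => prob q p (box d n) (boundary d n) (fun ω => config ω ∈ A))
      Filter.atTop (𝓝 (φ.real A))

/-- The graph of the open edges. -/
def openGraph (σ : Config d) : SimpleGraph (Zd d) :=
  SimpleGraph.fromEdgeSet {e | ∃ h : IsEdge e, σ ⟨e, h⟩ = true}

/-- `θ = φ(0 ↔ ∞)`: the probability that the cluster of the origin is infinite. -/
noncomputable def theta (φ : Measure (Config d)) : ℝ :=
  φ.real {σ : Config d | {x : Zd d | (openGraph σ).Reachable 0 x}.Infinite}

end Pool.Agent.MP31386dIns
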