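import Pool.Agent.Lib.MP_31386d_pr_ins.Lim

/-!
# MP_31386d_pr: existence and uniqueness of the wired infinite volume measure
-/

set_option autoImplicit false

namespace Pool.Agent.MP31386dIns

open MeasureTheory Set Filter
open scoped Classical Topology BoundedContinuousFunction

variable {d : ℕ} {q p : ℝ}

instance : Countable (Edge d) := by
  unfold Edge
  infer_instance

theorem real_clopen_tendsto {ι : Type} {L : Filter ι} {μs : ι → ProbabilityMeasure (Config d)}
    {μ : ProbabilityMeasure (Config d)} (h : Tendsto μs L (𝓝 μ)) {A : Set (Config d)}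
    (hA : IsClopen A) :
    Tendsto (fun i => (μs i : Measure (Config d)).real A) L
      (𝓝 ((μ : Measure (Config d)).real A)) := by
  have hm : MeasurableSet A := hA.isOpen.measurableSet
  obtain ⟨f, hf⟩ : ∃ f : Config d →ᵇ ℝ, ∀ σ, f σ = A.indicator (fun _ => (1 : ℝ)) σ := by
    refine ⟨BoundedContinuousFunction.ofNormedAddCommGroup (A.indicator fun _ => (1 : ℝ))
      (hA.continuous_indicator continuous_const) 1 fun σ => ?_, fun σ => rfl⟩
    by_cases hσ : σ ∈ A
    · rw [indicator_of_mem hσ]
      simp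
    · rw [indicator_of_notMem hσ]
      simp
  have h1 := (ProbabilityMeasure.tendsto_iff_forall_integral_tendsto.1 h) f
  have h2 : ∀ ν : Measure (Config d), ∫ σ, f σ ∂ν = ν.real A := by
    intro ν
    simp only [hf]
    rw [integral_indicator_const _ hm]
    simp
  simp only [h2] at h1
  exact h1

theorem exists_isWired (hq : 1 ≤ q) (hp : p ∈ Icc (0 : ℝ) 1) :
    ∃ φ : Measure (Config d), IsWired q p φ := by
  obtain ⟨μs, hμs⟩ : ∃ μs : ℕ → ProbabilityMeasure (Config d),
      μs = fun n => ⟨mu d q p n, isProb_mu hq hp n⟩ := ⟨_, rfl⟩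
  obtain ⟨U, hU⟩ : ∃ U : Ultrafilter ℕ, (U : Filter ℕ) ≤ atTop :=
    ⟨Ultrafilter.of atTop, Ultrafilter.of_le _⟩
  obtain ⟨μ, -, hμ⟩ := isCompact_univ.ultrafilter_le_nhds (U.map μs) (by simp)
  have hμ' : Tendsto μs U (𝓝 μ) := hμ
  refine ⟨μ, μ.2, fun F A hF => ?_⟩
  obtain ⟨l, hl⟩ := tendsto_cyl hq hp hF
  have h1 := real_clopen_tendsto hμ' hF.isClopen
  have h2 : Tendsto (fun i => (μs i : Measure (Config d)).real A) U (𝓝 l) := by
    refine (hl.mono_left hU).congr fun n => ?_
    rw [hμs]
    exact (mu_real hq hp n hF.measurableSet).symm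
  rw [tendsto_nhds_unique h1 h2]
  exact hl

theorem isWired_unique {φ ψ : Measure (Config d)} (hφ : IsWired q p φ) (hψ : IsWired q p ψ) :
    φ = ψ := by
  have h1 := hφ.isProbabilityMeasure
  have h2 := hψ.isProbabilityMeasure
  refine ext_of_generate_finite _ generateFrom_measurableCylinders.symm
    (isPiSystem_measurableCylinders) ?_ (by rw [measure_univ, measure_univ])
  intro A hA
  obtain ⟨F, S, -, rfl⟩ := (mem_measurableCylinders A).1 hA
  have hF : DependsOnly F (cylinder F S : Set (Config d)) := by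
    intro σ τ h
    rw [mem_cylinder, mem_cylinder]
    have : F.restrict σ = F.restrict τ := funext fun e => h e.1 e.2
    rw [this]
  have h3 := tendsto_nhds_unique (hφ.tendsto F _ hF) (hψ.tendsto F _ hF)
  rwa [measureReal_def, measureReal_def,
    ENNReal.toReal_eq_toReal_iff' (measure_ne_top _ _) (measure_ne_top _ _)] at h3

end Pool.Agent.MP31386dIns
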