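import Pool.Agent.Lib.MP_31386d_pr_ins.Box

/-!
# MP_31386d_pr: the wired measures in the boxes converge
-/

set_option autoImplicit false

namespace Pool.Agent.MP31386dIns

open MeasureTheory Set Filter
open scoped Classical Topology
open Pool.Agent.Lib.MP_31386d_pr (Pt Ed tgt EI EB EF cube PrF wF ph ph_inj BdF Ex Pb mem_cube
  cube_sdiff BdF_sub PrF_eq Ex_dom_V Ex_irrel mem_EB mem_EI EI_cube_sub)

variable {d : ℕ} {q p : ℝ}

/-- increasing events -/
def Incr (A : Set (Config d)) : Prop :=
  ∀ σ τ : Config d, (∀ e, σ e = true → τ e = true) → σ ∈ A → τ ∈ A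

theorem pw_succ_eq (hq : 1 ≤ q) (hp0 : 0 < p) (hp1 : p < 1) (n : ℕ) (A : Set (Config d)) :
    pw q p (n + 1) A = Pb (p / (1 - p)) q (cube d n) (EI (cube d (n + 1)))
      (fun ω => config (ω.map ⟨ph, ph_inj⟩) ∈ A) := by
  unfold pw
  rw [prob_eq, boundary_eq, box_eq, PrF_eq hq hp0 hp1 _ _ (BdF_sub _), cube_sdiff]

theorem cube_mono' {m n : ℕ} (h : m ≤ n) : cube d m ⊆ cube d n := by
  intro x hx
  rw [mem_cube] at *
  intro i
  have := hx i
  constructor <;> omega

theorem pw_anti (hq : 1 ≤ q) (hp0 : 0 < p) (hp1 : p < 1) {n N : ℕ} (h : n ≤ N)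
    {A : Set (Config d)} (hA : Incr A) {F : Finset (Edge d)} (hF : DependsOnly F A)
    (hFn : ∀ e ∈ F, e.1 ∈ edges (box d (n + 1))) : pw q p (N + 1) A ≤ pw q p (n + 1) A := by
  have hu : 0 < p / (1 - p) := by
    have : 0 < 1 - p := by linarith
    positivity
  obtain ⟨f, hf⟩ : ∃ f : Finset (Ed d) → ℝ,
      f = fun ω => if config (ω.map ⟨ph, ph_inj⟩) ∈ A then 1 else 0 := ⟨_, rfl⟩
  have hf0 : ∀ ω, 0 ≤ f ω := fun ω => by rw [hf]; simp only; split_ifs <;> norm_num
  have hfm : ∀ s t, s ⊆ t → f s ≤ f t := by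
    intro s t hst
    rw [hf]
    simp only
    split_ifs with h1 h2
    · exact le_rfl
    · refine absurd (hA _ _ (fun e he => ?_) h1) h2
      unfold config at he ⊢
      rw [decide_eq_true_eq] at he ⊢
      exact Finset.map_subset_map.2 hst he
    · norm_num
    · exact le_rfl
  have e1 : Ex (p / (1 - p)) q (cube d N) (EI (cube d (N + 1))) f ≤
      Ex (p / (1 - p)) q (cube d n) (EI (cube d (N + 1))) f :=
    Ex_dom_V hu hq (cube_mono' h) hf0 hfm
  have hsub : EI (cube d (n + 1)) ⊆ EI (cube d (N + 1)) := by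
    intro e he
    rw [mem_EI] at he ⊢
    exact ⟨cube_mono' (by omega) he.1, cube_mono' (by omega) he.2⟩
  have h1 : EI (cube d (N + 1)) =
      EI (cube d (n + 1)) ∪ (EI (cube d (N + 1)) \ EI (cube d (n + 1))) := by
    rw [Finset.union_sdiff_of_subset hsub]
  have e2 : Ex (p / (1 - p)) q (cube d n) (EI (cube d (N + 1))) f =
      Ex (p / (1 - p)) q (cube d n) (EI (cube d (n + 1))) f := by
    rw [h1]
    apply Ex_irrel hu hq Finset.disjoint_sdiff
    · intro e he
      have h2 := (Finset.mem_sdiff.mp he).2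
      have h3 : e ∉ EB (cube d n) := fun h4 => h2 (EI_cube_sub n h4)
      rw [mem_EB] at h3
      exact ⟨fun h4 => h3 (Or.inl h4), fun h4 => h3 (Or.inr h4)⟩
    · intro s t _ ht
      have h3 : config ((s ∪ t).map ⟨ph, ph_inj⟩) ∈ A ↔ config (s.map ⟨ph, ph_inj⟩) ∈ A := by
        refine hF _ _ fun e he => ?_
        unfold config
        rw [Finset.map_union]
        congr 1
        rw [eq_iff_iff, Finset.mem_union]
        refine ⟨fun h4 => h4.resolve_right fun h5 => ?_, Or.inl⟩
        obtain ⟨a, ha, hae⟩ := Finset.mem_map.1 h5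
        have h6 := hFn e he
        rw [edges_eq, EF, box_eq] at h6
        obtain ⟨b, hb, hbe⟩ := Finset.mem_map.1 h6
        have h7 : a = b := ph_inj (hae.trans hbe.symm)
        exact (Finset.mem_sdiff.1 (ht ha)).2 (h7 ▸ hb)
      rw [hf]
      simp only [h3]
  have e3 : ∀ m, pw q p (m + 1) A = Ex (p / (1 - p)) q (cube d m) (EI (cube d (m + 1))) f := by
    intro m
    rw [pw_succ_eq hq hp0 hp1, Pb, hf]
  rw [e3, e3, ← e2]
  exact e1

theorem pw_anti' (hq : 1 ≤ q) (hp : p ∈ Icc (0 : ℝ) 1) {n N : ℕ} (h : n ≤ N)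
    {A : Set (Config d)} (hA : Incr A) {F : Finset (Edge d)} (hF : DependsOnly F A)
    (hFn : ∀ e ∈ F, e.1 ∈ edges (box d (n + 1))) : pw q p (N + 1) A ≤ pw q p (n + 1) A := by
  rcases hp.1.lt_or_eq with h0 | h0
  · rcases hp.2.lt_or_eq with h1 | h1
    · exact pw_anti hq h0 h1 h hA hF hFn
    · rw [h1, pw_one hq, pw_one hq]
      have h2 : config (edges (box d (N + 1))) ∈ A ↔ config (edges (box d (n + 1))) ∈ A := by
        refine hF _ _ fun e he => ?_
        have h3 := hFn e he
        have h4 : e.1 ∈ edges (box d (N + 1)) := by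
          rw [mem_edges] at h3 ⊢
          exact ⟨h3.1, fun x hx => cube_mono' (by omega) (h3.2 x hx)⟩
        unfold config
        rw [decide_eq_true h3, decide_eq_true h4]
      simp only [h2]
      exact le_rfl
  · rw [← h0, pw_zero hq, pw_zero hq]

theorem eventually_mem_box (x : Zd d) : ∀ᶠ n in atTop, x ∈ box d n := by
  filter_upwards [eventually_ge_atTop (∑ i, (x i).natAbs)] with n hn
  rw [box_eq, mem_cube]
  intro i
  have h1 : (x i).natAbs ≤ ∑ i, (x i).natAbs :=
    Finset.single_le_sum (f := fun i => (x i).natAbs) (fun _ _ => Nat.zero_le _)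
      (Finset.mem_univ i)
  omega

theorem eventually_mem_edges (F : Finset (Edge d)) :
    ∀ᶠ n in atTop, ∀ e ∈ F, e.1 ∈ edges (box d n) := by
  rw [Filter.eventually_all_finset]
  rintro ⟨e, he⟩ _
  obtain ⟨x, y, h, rfl⟩ := he
  filter_upwards [eventually_mem_box x, eventually_mem_box y] with n hx hy
  rw [mem_edges]
  refine ⟨⟨x, y, h, rfl⟩, fun z hz => ?_⟩
  rcases Sym2.mem_iff.1 hz with rfl | rfl
  · exact hx
  · exact hy

/-- Convergence for increasing events, and the limit is the infimum. -/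
theorem tendsto_incr (hq : 1 ≤ q) (hp : p ∈ Icc (0 : ℝ) 1)
    {A : Set (Config d)} (hA : Incr A) {F : Finset (Edge d)} (hF : DependsOnly F A) :
    ∃ l : ℝ, Tendsto (fun n => pw q p n A) atTop (𝓝 l) := by
  obtain ⟨n₀, hn₀⟩ := (eventually_atTop.1 (eventually_mem_edges F))
  have hanti : Antitone fun n => pw q p (n + n₀ + 1) A := by
    intro m n hmn
    exact pw_anti' hq hp (by omega) hA hF fun e he => hn₀ _ (by omega) e he
  have hbdd : BddBelow (range fun n => pw q p (n + n₀ + 1) A) :=
    ⟨0, by rintro _ ⟨n, rfl⟩; exact pw_nonneg hq hp _ _⟩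
  have h1 := tendsto_atTop_ciInf hanti hbdd
  refine ⟨_, (tendsto_add_atTop_iff_nat (n₀ + 1)).1 (h1.congr fun n => ?_)⟩
  rw [add_assoc]

/-! ### Events that depend on finitely many edges -/

/-- the restriction to `F` -/
def rs (F : Finset (Edge d)) (σ : Config d) : F → Bool := fun e => σ e.1

theorem eq_preimage {F : Finset (Edge d)} {A : Set (Config d)} (h : DependsOnly F A) :
    A = rs F ⁻¹' (rs F '' A) := by
  refine Subset.antisymm (subset_preimage_image _ _) ?_
  rintro σ ⟨τ, hτ, he⟩
  exact (h τ σ fun e he' => congrFun he ⟨e, he'⟩).1 hτ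

theorem measurable_rs (F : Finset (Edge d)) : Measurable (rs F) :=
  measurable_pi_lambda _ fun e => measurable_pi_apply _

theorem DependsOnly.measurableSet {F : Finset (Edge d)} {A : Set (Config d)}
    (h : DependsOnly F A) : MeasurableSet A := by
  rw [eq_preimage h]
  exact measurable_rs F (Set.toFinite _).measurableSet

theorem DependsOnly.isClopen {F : Finset (Edge d)} {A : Set (Config d)}
    (h : DependsOnly F A) : IsClopen A := by
  rw [eq_preimage h]
  have hc : Continuous (rs F) := continuous_pi fun _ => continuous_apply _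
  exact (isClopen_discrete _).preimage hc

/-- the elementary cylinder -/
def Cy (F : Finset (Edge d)) (η : F → Bool) : Set (Config d) := {σ | rs F σ = η}

/-- the configurations above `η` -/
def Up (F : Finset (Edge d)) (η : F → Bool) : Set (Config d) :=
  {σ | ∀ e, η e = true → rs F σ e = true}

theorem dep_cy (F : Finset (Edge d)) (η : F → Bool) : DependsOnly F (Cy F η) := by
  intro σ τ h
  have : rs F σ = rs F τ := funext fun e => h e.1 e.2
  unfold Cy
  simp only [mem_ofPred_eq, this]

theorem dep_up (F : Finset (Edge d)) (η : F → Bool) : DependsOnly F (Up F η) := by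
  intro σ τ h
  have : rs F σ = rs F τ := funext fun e => h e.1 e.2
  unfold Up
  simp only [mem_ofPred_eq, this]

theorem dep_sdiff {F : Finset (Edge d)} {A B : Set (Config d)} (hA : DependsOnly F A)
    (hB : DependsOnly F B) : DependsOnly F (A \ B) := by
  intro σ τ h
  rw [Set.mem_sdiff, Set.mem_sdiff, hA σ τ h, hB σ τ h]

theorem incr_up (F : Finset (Edge d)) (η : F → Bool) : Incr (Up F η) :=
  fun _ _ h hσ e he => h _ (hσ e he)

theorem incr_up_sdiff (F : Finset (Edge d)) (η : F → Bool) : Incr (Up F η \ Cy F η) := by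
  rintro σ τ h ⟨h1, h2⟩
  refine ⟨incr_up F η σ τ h h1, fun h3 => h2 ?_⟩
  change rs F σ = η
  funext e
  have h4 : rs F τ e = η e := congrFun h3 e
  rcases hη : η e with _ | _
  · rcases hs : rs F σ e with _ | _
    · rfl
    · have h5 : rs F τ e = true := h _ hs
      rw [h4, hη] at h5
      exact h5.symm
  · exact h1 e hη

theorem cy_subset (F : Finset (Edge d)) (η : F → Bool) : Cy F η ⊆ Up F η := by
  intro σ hσ e he
  have h : rs F σ = η := hσ
  rw [h]
  exact he

/-- Convergence for all events that depend on finitely many edges. -/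
theorem tendsto_cyl (hq : 1 ≤ q) (hp : p ∈ Icc (0 : ℝ) 1)
    {A : Set (Config d)} {F : Finset (Edge d)} (hF : DependsOnly F A) :
    ∃ l : ℝ, Tendsto (fun n => pw q p n A) atTop (𝓝 l) := by
  have hcy : ∀ η : F → Bool, ∃ l : ℝ,
      Tendsto (fun n => (mu d q p n).real (Cy F η)) atTop (𝓝 l) := by
    intro η
    obtain ⟨l₁, h₁⟩ := tendsto_incr hq hp (incr_up F η) (dep_up F η)
    obtain ⟨l₂, h₂⟩ := tendsto_incr hq hp (incr_up_sdiff F η) (dep_sdiff (dep_up F η) (dep_cy F η))
    refine ⟨l₁ - l₂, (h₁.sub h₂).congr fun n => ?_⟩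
    have hpr := isProb_mu (d := d) hq hp n
    have m1 := (dep_up F η).measurableSet
    have m2 := (dep_sdiff (dep_up F η) (dep_cy F η)).measurableSet
    rw [← mu_real hq hp n m1, ← mu_real hq hp n m2, ← measureReal_sdiff sdiff_subset m2]
    congr 1
    ext σ
    simp only [Set.mem_sdiff]
    constructor
    · rintro ⟨h3, h4⟩
      by_contra h5
      exact h4 ⟨h3, h5⟩
    · intro h3
      exact ⟨cy_subset F η h3, fun h4 => h4.2 h3⟩
  choose l hl using hcy
  refine ⟨∑ η ∈ Finset.univ.filter (fun η : F → Bool => η ∈ rs F '' A), l η, ?_⟩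
  refine (tendsto_finsetSum _ fun η _ => hl η).congr fun n => ?_
  have hpr := isProb_mu (d := d) hq hp n
  rw [← mu_real hq hp n hF.measurableSet]
  have hA : A = ⋃ η ∈ Finset.univ.filter (fun η : F → Bool => η ∈ rs F '' A), Cy F η := by
    ext σ
    simp only [Finset.mem_filter, Finset.mem_univ, true_and, mem_iUnion, exists_prop]
    constructor
    · intro h
      exact ⟨rs F σ, ⟨σ, h, rfl⟩, rfl⟩
    · rintro ⟨η, h1, h2⟩
      rw [eq_preimage hF]
      have h3 : rs F σ = η := h2
      rw [mem_preimage, h3]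
      exact h1
  conv_rhs => rw [hA]
  rw [measureReal_biUnion_finset]
  · intro η _ η' _ hne
    refine Set.disjoint_left.2 fun σ h1 h2 => hne ?_
    have h3 : rs F σ = η := h1
    exact h3.symm.trans h2
  · exact fun η _ => (dep_cy F η).measurableSet

end Pool.Agent.MP31386dIns
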