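import Pool.Agent.Lib.MP_31386d_pr_ins.Exist

/-!
# MP_31386d_pr: the percolation probability of the wired infinite volume measure
-/

set_option autoImplicit false

namespace Pool.Agent.MP31386dIns

open MeasureTheory Set Filter
open scoped Classical Topology
open Pool.Agent.Lib.MP_31386d_pr (Pt Ed tgt EI EB EF cube PrF wF ph ph_inj BdF Ex Pb mem_cube
  cube_sdiff BdF_sub PrF_eq Ex_dom_V Ex_irrel mem_EB mem_EI EI_cube_sub RE mem_BdF_of
  notMem_cube_of_BdF mem_BdF zero_mem_cube WS mem_WS_iff zero_notMem_WS one_mem_WS)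

variable {d : ℕ} {q p : ℝ}

/-- the open cluster of the origin leaves the box -/
def Leave (d n : ℕ) : Set (Config d) := {σ | ∃ z, z ∉ box d n ∧ (openGraph σ).Reachable 0 z}

theorem open_adj {σ : Config d} {a b : Zd d} :
    (openGraph σ).Adj a b ↔ (∃ h : IsEdge s(a, b), σ ⟨s(a, b), h⟩ = true) ∧ a ≠ b := by
  unfold openGraph
  rw [SimpleGraph.fromEdgeSet_adj]
  exact Iff.rfl

theorem incr_leave (n : ℕ) : Incr (Leave d n) := by
  rintro σ τ h ⟨z, hz, hr⟩
  refine ⟨z, hz, hr.mono ?_⟩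
  intro a b hab
  rw [open_adj] at hab ⊢
  obtain ⟨⟨h1, h2⟩, h3⟩ := hab
  exact ⟨⟨h1, h _ h2⟩, h3⟩

theorem leave_anti {m n : ℕ} (h : m ≤ n) : Leave d n ⊆ Leave d m := by
  rintro σ ⟨z, hz, hr⟩
  exact ⟨z, fun h1 => hz (cube_mono' h h1), hr⟩

/-- a lattice edge -/
def mkE (e : Sym2 (Zd d)) (h : IsEdge e) : Edge d := ⟨e, h⟩

/-- the edges of the box, as edges of the lattice -/
noncomputable def FE (d n : ℕ) : Finset (Edge d) :=
  (edges (box d n)).attach.image fun e => mkE e.1 (mem_edges.1 e.2).1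

theorem mem_FE {n : ℕ} {e : Edge d} : e ∈ FE d n ↔ e.1 ∈ edges (box d n) := by
  unfold FE
  simp only [Finset.mem_image, Finset.mem_attach, true_and, Subtype.exists]
  constructor
  · rintro ⟨a, ha, rfl⟩
    exact ha
  · intro h
    exact ⟨e.1, h, rfl⟩

theorem mem_box_succ {n : ℕ} {a b : Zd d} (h : IsEdge s(a, b)) (ha : a ∈ box d n) :
    s(a, b) ∈ edges (box d (n + 1)) := by
  rw [mem_edges]
  refine ⟨h, ?_⟩
  have hsum : ∑ i, |a i - b i| = 1 := by
    obtain ⟨x, y, h1, h2⟩ := h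
    rcases Sym2.eq_iff.1 h2 with ⟨rfl, rfl⟩ | ⟨rfl, rfl⟩
    · exact h1
    · rw [← h1]
      exact Finset.sum_congr rfl fun i _ => abs_sub_comm _ _
  have hi : ∀ i, |a i - b i| ≤ 1 := by
    intro i
    rw [← hsum]
    exact Finset.single_le_sum (f := fun i => |a i - b i|) (fun _ _ => abs_nonneg _)
      (Finset.mem_univ i)
  intro z hz
  rw [box_eq, mem_cube] at ha ⊢
  rcases Sym2.mem_iff.1 hz with rfl | rfl
  · intro i
    have := ha i
    push_cast
    constructor <;> omega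
  · intro i
    have h1 := ha i
    have h2 := abs_le.1 (hi i)
    push_cast
    constructor <;> omega

theorem leave_of_agree {n : ℕ} {σ τ : Config d} (h : ∀ e ∈ FE d (n + 1), σ e = τ e)
    (hσ : σ ∈ Leave d n) : τ ∈ Leave d n := by
  obtain ⟨z, hz, hr⟩ := hσ
  rw [SimpleGraph.reachable_iff_reflTransGen] at hr
  have key : ∀ a, Relation.ReflTransGen (openGraph σ).Adj a z →
      ∃ z', z' ∉ box d n ∧ (openGraph τ).Reachable a z' := by
    intro a ha
    induction ha using Relation.ReflTransGen.head_induction_on with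
    | refl => exact ⟨z, hz, SimpleGraph.Reachable.refl _⟩
    | head hab _ ih =>
      rename_i a c _
      by_cases ha : a ∈ box d n
      · obtain ⟨z', hz', hr'⟩ := ih
        rw [open_adj] at hab
        obtain ⟨⟨h1, h2⟩, h3⟩ := hab
        have h4 : (⟨s(a, c), h1⟩ : Edge d) ∈ FE d (n + 1) := mem_FE.2 (mem_box_succ h1 ha)
        have h5 : (openGraph τ).Adj a c := by
          rw [open_adj]
          exact ⟨⟨h1, by rw [← h _ h4]; exact h2⟩, h3⟩
        exact ⟨z', hz', h5.reachable.trans hr'⟩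
      · exact ⟨a, ha, SimpleGraph.Reachable.refl _⟩
  exact key _ hr

theorem dep_leave (n : ℕ) : DependsOnly (FE d (n + 1)) (Leave d n) := fun _ _ h =>
  ⟨leave_of_agree h, leave_of_agree fun e he => (h e he).symm⟩

theorem infinite_iff (σ : Config d) :
    {x : Zd d | (openGraph σ).Reachable 0 x}.Infinite ↔ ∀ n, σ ∈ Leave d n := by
  constructor
  · intro h n
    by_contra hn
    refine h ((box d n).finite_toSet.subset fun x hx => ?_)
    by_contra hx'
    exact hn ⟨x, hx', hx⟩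
  · intro h hfin
    have h1 : ∀ᶠ n in atTop, ∀ x ∈ hfin.toFinset, x ∈ box d n :=
      (Filter.eventually_all_finset _).2 fun x _ => eventually_mem_box x
    obtain ⟨n, hn⟩ := h1.exists
    obtain ⟨z, hz, hr⟩ := h n
    exact hz (hn z (by rw [Set.Finite.mem_toFinset]; exact hr))

theorem tendsto_theta (φ : Measure (Config d)) [IsProbabilityMeasure φ] :
    Tendsto (fun n => φ.real (Leave d n)) atTop (𝓝 (theta φ)) := by
  have h1 : {σ : Config d | {x : Zd d | (openGraph σ).Reachable 0 x}.Infinite} =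
      ⋂ n, Leave d n := by
    ext σ
    rw [mem_iInter]
    exact infinite_iff σ
  have h2 : Tendsto (fun n => φ (Leave d n)) atTop (𝓝 (φ (⋂ n, Leave d n))) :=
    tendsto_measure_iInter_atTop (fun n => (dep_leave n).measurableSet.nullMeasurableSet)
      (fun m n hmn => leave_anti hmn) ⟨0, measure_ne_top _ _⟩
  unfold theta
  rw [h1]
  exact (ENNReal.tendsto_toReal (measure_ne_top _ _)).comp h2

theorem theta_le (φ : Measure (Config d)) [IsProbabilityMeasure φ] (n : ℕ) :
    theta φ ≤ φ.real (Leave d n) := by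
  unfold theta
  exact measureReal_mono (fun σ hσ => (infinite_iff σ).1 hσ n)

/-! ### The arm event in finite volume -/

theorem prob_congr (B W : Finset (Zd d)) {A A' : Finset (Sym2 (Zd d)) → Prop}
    (h : ∀ ω, ω ⊆ edges B → (A ω ↔ A' ω)) : prob q p B W A = prob q p B W A' := by
  unfold prob
  congr 1
  refine Finset.sum_congr ?_ fun _ _ => rfl
  ext ω
  rw [Finset.mem_filter, Finset.mem_filter, Finset.mem_powerset]
  exact ⟨fun h1 => ⟨h1.1, (h ω h1.1).1 h1.2⟩, fun h1 => ⟨h1.1, (h ω h1.1).2 h1.2⟩⟩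

theorem openGraph_config {B : Finset (Zd d)} {ω : Finset (Sym2 (Zd d))} (h : ω ⊆ edges B) :
    openGraph (config ω) = SimpleGraph.fromEdgeSet (ω : Set (Sym2 (Zd d))) := by
  unfold openGraph config
  congr 1
  ext e
  simp only [mem_ofPred_eq, decide_eq_true_eq, exists_prop, Finset.mem_coe]
  exact ⟨fun h1 => h1.2, fun h1 => ⟨(mem_edges.1 (h h1)).1, h1⟩⟩

theorem reach_box {n : ℕ} {ω : Finset (Sym2 (Zd d))} (h : ω ⊆ edges (box d n)) {z : Zd d}
    (hr : (SimpleGraph.fromEdgeSet (ω : Set (Sym2 (Zd d)))).Reachable 0 z) : z ∈ box d n := by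
  rw [SimpleGraph.reachable_iff_reflTransGen] at hr
  induction hr with
  | refl => exact zero_mem_cube n
  | tail _ hbc _ =>
    rw [SimpleGraph.fromEdgeSet_adj] at hbc
    exact (mem_edges.1 (h (Finset.mem_coe.1 hbc.1))).2 _ (Sym2.mem_mk_right _ _)

theorem pw_leave (n : ℕ) : pw q p (n + 1) (Leave d n) = PrF q (cube d (n + 1)) (BdF d (n + 1)) p
    (fun ω => ∃ y ∈ BdF d (n + 1), RE 0 y ω) := by
  rw [← prob_eq, ← boundary_eq, ← box_eq]
  unfold pw
  refine prob_congr _ _ fun ω hω => ?_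
  unfold Leave RE
  rw [mem_ofPred_eq, openGraph_config hω, boundary_eq]
  constructor
  · rintro ⟨z, hz, hr⟩
    exact ⟨z, mem_BdF_of (reach_box hω hr) hz, hr⟩
  · rintro ⟨y, hy, hr⟩
    exact ⟨y, notMem_cube_of_BdF hy, hr⟩

theorem pr_zero (hd : 1 ≤ d) (hq : 1 ≤ q) (hp : p ∈ Icc (0 : ℝ) 1) :
    PrF q (cube d 0) (BdF d 0) p (fun ω => ∃ y ∈ BdF d 0, RE 0 y ω) = 1 := by
  have h1 := pw_univ (d := d) hq hp 0
  unfold pw at h1
  rw [← prob_eq, ← boundary_eq, ← box_eq, ← h1]
  refine prob_congr _ _ fun ω _ => ⟨fun _ => mem_univ _, fun _ => ⟨0, ?_, ?_⟩⟩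
  · rw [boundary_eq, mem_BdF]
    exact ⟨zero_mem_cube _, ⟨0, hd⟩, by simp⟩
  · exact SimpleGraph.Reachable.refl _

theorem le_pw_leave (hq : 1 ≤ q) (hp : p ∈ Icc (0 : ℝ) 1) {φ : Measure (Config d)}
    (hφ : IsWired q p φ) (n : ℕ) : φ.real (Leave d n) ≤ pw q p (n + 1) (Leave d n) := by
  have h1 := (hφ.tendsto _ _ (dep_leave n)).comp (tendsto_add_atTop_nat 1)
  refine le_of_tendsto h1 ?_
  filter_upwards [eventually_ge_atTop n] with N hN
  exact pw_anti' hq hp hN (incr_leave n) (dep_leave n) fun e he => mem_FE.1 he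

theorem theta_pos_iff (hd : 1 ≤ d) (hq : 1 ≤ q) (hp : p ∈ Icc (0 : ℝ) 1)
    {φ : Measure (Config d)} (hφ : IsWired q p φ) : 0 < theta φ ↔ p ∈ WS d q := by
  have hpr := hφ.isProbabilityMeasure
  constructor
  · intro h
    refine ⟨hp, min (theta φ / 2) (1 / 2), lt_min (by linarith) (by norm_num), fun n => ?_⟩
    cases n with
    | zero =>
      rw [pr_zero hd hq hp]
      exact lt_of_le_of_lt (min_le_right _ _) (by norm_num)
    | succ n =>
      rw [← pw_leave]
      have h1 := le_pw_leave hq hp hφ n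
      have h2 := theta_le φ n
      exact lt_of_le_of_lt (min_le_left _ _) (by linarith)
  · rintro ⟨-, c, hc, h⟩
    have h1 : ∀ m, c ≤ φ.real (Leave d m) := by
      intro m
      have h2 := (hφ.tendsto _ _ (dep_leave m)).comp (tendsto_add_atTop_nat 1)
      refine ge_of_tendsto h2 ?_
      filter_upwards [eventually_ge_atTop m] with N hN
      have h3 := h (N + 1)
      rw [← pw_leave] at h3
      exact h3.le.trans (pw_mono hq hp _ (leave_anti hN))
    exact lt_of_lt_of_le hc (ge_of_tendsto (tendsto_theta φ) (Eventually.of_forall h1))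

end Pool.Agent.MP31386dIns
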